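import Pool.Agent.H327R4.Pure.All3

/-!
# In every simple unital infinite-dimensional C*-algebra all ranks almost occur

Let `A` be a simple unital infinite-dimensional C*-algebra (no comparison, separability,
nuclearity or stable rank hypothesis), `T(A)` its tracial states. Between an upper
semicontinuous function `g` and a lower semicontinuous affine function `f : T(A) → (0, ∞]` with
`g < f` there is the rank function of a positive matrix over `A`.

The proof uses the modules `Pool.Agent.H327R4.Pure` of an earlier round (`StSEP`: Hahn-Banach,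
`StALM`: every strictly positive continuous affine function is up to `ε` a rank function).
-/

set_option autoImplicit false

namespace Pool.Agent.Results.MP_d8b6c2_an.RanksAreDense

open Pool.Agent.H327R4.Pure
open scoped ENNReal Topology

universe u

variable {A : Type u} [CStarAlgebra A]

theorem cont_tr (h : A) : Continuous fun T : TS A => (T.1.f h).re := by
  have h1 : Continuous fun T : TS A => (fun x : A => T.1.f x) := continuous_induced_dom
  exact Complex.continuous_re.comp ((continuous_apply h).comp h1)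

theorem aff_tr (h : A) : IsAff fun T : TS A => (T.1.f h).re := by
  intro t T T' T'' _ _ hm
  have := hm h
  simp only [this, Complex.add_re, Complex.mul_re, Complex.ofReal_re, Complex.ofReal_im]
  ring

/-- between finitely many elements below `f` and `f` there is an element -/
theorem exists_sup (f : TS A → ℝ≥0∞) (hf : LowerSemicontinuous f) (haff : IsAffE f)
    (hpos : ∀ T, f T ≠ 0) (T₀ : TS A) (s : Finset A)
    (hs : ∀ x ∈ s, ∀ T : TS A, ENNReal.ofReal (T.1.f x).re < f T) :
    ∃ h : A, (∀ T : TS A, 0 < (T.1.f h).re ∧ ENNReal.ofReal (T.1.f h).re < f T) ∧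
      ∀ x ∈ s, ∀ T : TS A, (T.1.f x).re < (T.1.f h).re := by
  classical
  induction s using Finset.induction_on with
  | empty =>
    obtain ⟨h, _, h2, _⟩ := sep' A f hf haff 0 0 T₀ 0
      (fun T => by simpa using pos_iff_ne_zero.2 (hpos T))
      (fun T => by simpa using pos_iff_ne_zero.2 (hpos T))
      (by simpa using pos_iff_ne_zero.2 (hpos T₀))
    refine ⟨h, fun T => ⟨by simpa using (h2 T).1, (h2 T).2.2⟩, by simp⟩
  | insert x s hx ih =>
    obtain ⟨h, h1, h2⟩ := ih (fun y hy => hs y (Finset.mem_insert_of_mem hy))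
    obtain ⟨h', _, h3, _⟩ := sep' A f hf haff h x T₀ 0 (fun T => (h1 T).2)
      (fun T => hs x (Finset.mem_insert_self x s) T)
      (by simpa using pos_iff_ne_zero.2 (hpos T₀))
    refine ⟨h', fun T => ⟨(h1 T).1.trans (h3 T).1, (h3 T).2.2⟩, ?_⟩
    intro y hy T
    rcases Finset.mem_insert.1 hy with rfl | hy
    · exact (h3 T).2.1
    · exact (h2 y hy T).trans (h3 T).1

theorem result :
    ∀ (A : Type u) [CStarAlgebra A] [PartialOrder A] [StarOrderedRing A],
      SimpleC A → ¬ FiniteDimensional ℂ A →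
      ∀ (f : TS A → ℝ≥0∞) (g : TS A → ℝ), LowerSemicontinuous f → IsAffE f → (∀ T, f T ≠ 0) →
        UpperSemicontinuous g → (∀ T, ENNReal.ofReal (g T) < f T) →
        ∃ (K : ℕ) (a : MM K A), 0 ≤ a ∧ ∀ T : TS A,
          ∃ d : ℝ, IsRank (trM T.1 (Fin K)) a d ∧ g T < d ∧ ENNReal.ofReal d < f T := by
  classical
  intro A _ _ _ hs hfd f g hf haff hpos hg hgf
  rcases isEmpty_or_nonempty (TS A) with he | ⟨⟨T₀⟩⟩
  · exact ⟨0, 0, le_rfl, fun T => (he.false T).elim⟩
  have : CompactSpace (TS A) := cpt' A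
  have : Nonempty (TS A) := ⟨T₀⟩
  -- an element above `g` near every point
  have hloc : ∀ T : TS A, ∃ h : A, (∀ T' : TS A, ENNReal.ofReal (T'.1.f h).re < f T') ∧
      g T < (T.1.f h).re := by
    intro T
    obtain ⟨r, hr0, hr1, hr2⟩ : ∃ r : ℝ, 0 ≤ r ∧ g T < r ∧ ENNReal.ofReal r < f T := by
      obtain ⟨c, hc1, hc2⟩ := exists_between (hgf T)
      have hcf : c ≠ ∞ := ne_top_of_lt hc2
      refine ⟨c.toReal, ENNReal.toReal_nonneg, ?_, by rwa [ENNReal.ofReal_toReal hcf]⟩
      rcases lt_or_ge (g T) 0 with h0 | h0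
      · exact lt_of_lt_of_le h0 ENNReal.toReal_nonneg
      · exact (ENNReal.ofReal_lt_iff_lt_toReal h0 hcf).1 hc1
    obtain ⟨h, _, h2, h3⟩ := sep' A f hf haff 0 0 T r
      (fun T => by simpa using pos_iff_ne_zero.2 (hpos T))
      (fun T => by simpa using pos_iff_ne_zero.2 (hpos T)) hr2
    exact ⟨h, fun T' => (h2 T').2.2, hr1.trans h3⟩
  choose h hh1 hh2 using hloc
  have hop : ∀ T : TS A, IsOpen {T' : TS A | g T' < (T'.1.f (h T)).re} := by
    intro T
    have h1 : UpperSemicontinuous fun T' : TS A => g T' + -(T'.1.f (h T)).re :=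
      hg.add (cont_tr (h T)).neg.upperSemicontinuous
    have h2 := h1.isOpen_preimage 0
    convert h2 using 1
    ext T'
    simp only [Set.mem_ofPred_eq, Set.mem_preimage, Set.mem_Iio]
    constructor <;> intro h3 <;> linarith
  obtain ⟨t, ht⟩ := isCompact_univ.elim_finite_subcover
    (fun T : TS A => {T' : TS A | g T' < (T'.1.f (h T)).re}) hop
    (fun T _ => Set.mem_iUnion.2 ⟨T, hh2 T⟩)
  obtain ⟨h₁, h11, h12⟩ := exists_sup f hf haff hpos T₀ (t.image h) (by
    intro x hx T
    obtain ⟨T', _, rfl⟩ := Finset.mem_image.1 hx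
    exact hh1 T' T)
  have hg1 : ∀ T : TS A, g T < (T.1.f h₁).re := by
    intro T
    obtain ⟨T', hT', hT⟩ := Set.mem_iUnion₂.1 (ht (Set.mem_univ T))
    exact lt_trans hT (h12 _ (Finset.mem_image_of_mem h hT') T)
  obtain ⟨h₂, h21, h22⟩ := exists_sup f hf haff hpos T₀ {h₁} (by
    intro x hx T
    rw [Finset.mem_singleton.1 hx]
    exact (h11 T).2)
  -- the gap
  obtain ⟨ε, hε, hgap⟩ : ∃ ε : ℝ, 0 < ε ∧ ∀ T : TS A, ε ≤ (T.1.f h₂).re - (T.1.f h₁).re := by
    obtain ⟨T₁, _, hT₁⟩ := isCompact_univ.exists_isMinOn (Set.univ_nonempty (α := TS A))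
      (((cont_tr h₂).sub (cont_tr h₁)).continuousOn)
    refine ⟨(T₁.1.f h₂).re - (T₁.1.f h₁).re, sub_pos.2 (h22 h₁ (by simp) T₁), ?_⟩
    intro T
    exact hT₁ (Set.mem_univ T)
  obtain ⟨K, a, ha0, ha⟩ := alm' A hs hfd (fun T => (T.1.f h₂).re) ε (cont_tr h₂) (aff_tr h₂)
    (fun T => (h21 T).1) hε
  refine ⟨K, a, ha0, fun T => ?_⟩
  obtain ⟨d, hd, hd1, hd2⟩ := ha T
  refine ⟨d, hd, ?_, ?_⟩
  · have := hgap T
    have := hg1 T
    linarith
  · exact lt_of_le_of_lt (ENNReal.ofReal_le_ofReal hd2.le) (h21 T).2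

end Pool.Agent.Results.MP_d8b6c2_an.RanksAreDense
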