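import Pool.Agent.H327R4.Pure.All3

/-!
# The rank problem for simple C*-algebras with strict comparison

Let `A` be a simple separable infinite-dimensional unital C*-algebra with strict comparison of
positive elements with respect to its tracial states. Then all ranks occur in `A`: every lower
semicontinuous affine function `f : T(A) → (0, ∞]` is `τ ↦ d_τ(s)` for a positive element `s` of
the stabilisation `A ⊗ K`. No condition on the simplex `T(A)` and no stable rank, nuclearity or
`Z`-stability hypothesis.

The modules of `Pool.Agent.H327R4.Pure` were written in an earlier round by the helpers named in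
`All`, `All2` and `All3`; the statement is `StOCC` proved there, which was never handed in.
Idea: for a positive `c ≠ 0` of tiny rank and `1 = ∑ y_i^* c y_i`, the element
`g = c^(1/2) (∑ y_i h y_i^*) c^(1/2)` has the same traces as `h` and tiny rank, so
`⊕_j (g - j)_+` has almost the rank `τ ↦ τ(h)`; comparison makes a sequence of such elements
with ranks increasing to `f` increasing in the Cuntz semigroup, and its supremum has rank `f`.
-/

set_option autoImplicit false

namespace Pool.Agent.Results.MP_d8b6c2_an.StrictComparisonAllRanks

open Pool.Agent.H327R4.Pure
open scoped ENNReal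

universe u v

theorem result :
    ∀ (A : Type u) [CStarAlgebra A] [PartialOrder A] [StarOrderedRing A]
      [TopologicalSpace.SeparableSpace A],
      SimpleC A → ¬ FiniteDimensional ℂ A → SC A →
        (∃ (S : Type u) (_ : NonUnitalCStarAlgebra S) (_ : PartialOrder S)
          (_ : StarOrderedRing S), Nonempty (Stab A S)) ∧
        ∀ (S : Type v) [NonUnitalCStarAlgebra S] [PartialOrder S] [StarOrderedRing S]
          (st : Stab A S) (f : TS A → ℝ≥0∞), LowerSemicontinuous f → IsAffE f →
          (∀ T, f T ≠ 0) → ∃ s : S, 0 ≤ s ∧ ∀ T : TS A, IsRankS st T.1 s (f T) := by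
  intro A _ _ _ _ hs hfd hSC
  refine ⟨exists_stab A, ?_⟩
  intro S _ _ _ st f hf haff hpos
  exact occ' A S st hs hfd hSC f hf haff hpos

end Pool.Agent.Results.MP_d8b6c2_an.StrictComparisonAllRanks
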